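import Pool.Agent.Lib.MP_1a91b9_ntH2.D.Kd
import Pool.Agent.Lib.MP_1a91b9_ntH.D.DAlg

/-!
# MP_1a91b9_nt (TwistDensity), phase 2, part D: moments and density for the class `c`
-/

set_option autoImplicit false

namespace Pool.Agent.Lib.MP_1a91b9_ntH2.Db

open Finset Pool.Agent.Lib.MP_1a91b9_ntH Pool.Agent.Lib.MP_1a91b9_ntH.Da

noncomputable section

/-- The system with the classes changed by the character of `c`. -/
def twD {ι : Type} (c : F4) (D : Dat ι) : Dat ι where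
  s := D.s
  a q := D.a q + F4.of (F4.tr (c * D.a q))

variable {k : ℕ} {ι : Type} [DecidableEq ι]

/-- The exponent of a labelling of `S` for the class `c`. -/
def eS2 (D : Dat ι) (c c' : F4) (S : Finset ι) (f : S → Lab k) : ZMod 2 :=
  ∑ j : S, F4.tr (gam2 c c' (f j) * D.a j) + ∑ i : S, ∑ j : S, Phi (f i) (f j) * D.s i j

theorem eS2_eq (D : Dat ι) (c c' : F4) (S : Finset ι) (f : S → Lab k) :
    eS2 D c c' S f = eS (twD c D) 0 S f + F4.tr (c' * D.A S) := by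
  have h1 : F4.tr (c' * D.A S) = ∑ j : S, F4.tr (c' * D.a j) := by
    rw [Dat.A, mul_sum, Da.F4.tr_sum, sum_coe_sort S fun j => F4.tr (c' * D.a j)]
  have h2 : ∑ j : S, F4.tr (gam2 c c' (f j) * D.a j) =
      ∑ j : S, F4.tr (gam 0 (f j) * (twD c D).a j) + ∑ j : S, F4.tr (c' * D.a j) := by
    rw [← sum_add_distrib]
    refine sum_congr rfl fun j _ => ?_
    have hQ : Qf (f j) = F4.tr (F4.cj ((f j).1 ⬝ᵥ (f j).2)) := by
      rw [Qf, dotProduct_comm, Da.F4.tr_cj]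
    have hd : ∀ g c c' a : F4, F4.tr ((g + c' + c * F4.of (F4.tr g)) * a) =
        F4.tr ((g + 0) * (a + F4.of (F4.tr (c * a)))) + F4.tr (c' * a) := by decide
    rw [gam2, hQ]
    exact hd _ _ _ _
  rw [eS2, eS, h1, h2]
  show _ + _ + _ = _ + ∑ i : S, ∑ j : S, Phi (f i) (f j) * D.s i j + _
  ring

theorem kc_pow_mul2 (D : Dat ι) (c c' : F4) (S : Finset ι) :
    ((twD c D).kc S : ℝ) ^ k * sg (F4.tr (c' * D.A S)) * (4 ^ k) ^ S.card =
      ∑ f : S → Lab k, sg (eS2 D c c' S f) := by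
  have h1 := kc_pow_mul (k := k) (twD c D) 0 S
  rw [zero_mul, Da.F4.tr_zero, sg_zero, mul_one] at h1
  calc ((twD c D).kc S : ℝ) ^ k * sg (F4.tr (c' * D.A S)) * (4 ^ k) ^ S.card
      = (((twD c D).kc S : ℝ) ^ k * (4 ^ k) ^ S.card) * sg (F4.tr (c' * D.A S)) := by ring
    _ = _ := by
      rw [h1, sum_mul]
      refine sum_congr rfl fun f _ => ?_
      rw [eS2_eq, sg_add]

theorem kc_pow_eq2 (D : Dat ι) (c c' : F4) (S : Finset ι) :
    ((twD c D).kc S : ℝ) ^ k * sg (F4.tr (c' * D.A S)) =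
      (∑ f : S → Lab k, sg (eS2 D c c' S f)) / (4 ^ k) ^ S.card := by
  rw [← kc_pow_mul2, mul_div_assoc, div_self (by positivity), mul_one]

/-! ### The label system -/

/-- The label system of the `k`-th moment for the class `c`, twisted by `c'`. -/
def LSk2 (k : ℕ) (c c' : F4) : LSys (Lab k) where
  Phi := Phi
  gam := gam2 c c'
  o := fun l => (Fintype.equivFin (Lab k) l : ℕ)
  m := 4 ^ k

theorem LSk2_inj (k : ℕ) (c c' : F4) : Function.Injective (LSk2 k c c').o := fun _ _ h =>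
  (Fintype.equivFin (Lab k)).injective (Fin.val_injective h)

theorem LSk2_OK {k : ℕ} (hk : 1 ≤ k) (c c' : F4) : (LSk2 k c c').OK where
  diag := Phi_self
  inj := LSk2_inj k c c'
  two := by
    show 2 ≤ 4 ^ k
    calc 2 ≤ 4 ^ 1 := by norm_num
      _ ≤ 4 ^ k := Nat.pow_le_pow_right (by norm_num) hk
  k1 := fun _ hU => K1 hU
  k2 := fun U hU hc x hx => by
    obtain ⟨l, hl, l', hl', h1, h2⟩ := K2 hU hc hx
    refine ⟨l, hl, l', hl', ?_⟩
    show Lk l x ≠ Lk l' x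
    rw [h1, h2]
    exact one_ne_zero

theorem sum_cU2 (k : ℕ) (c c' : F4) : ∑ U ∈ (LSk2 k c c').Us, (LSk2 k c c').cU U =
    if c' = 0 then (Nk k : ℝ) else 0 :=
  K3c (LSk2 k c c').o (LSk2_inj k c c') c c'

/-! ### Moments in the classes -/

variable [PS ι]

/-- The mean value of `g (kc S)` over every class is `v`. -/
def MF2 (D : Dat ι) (c : F4) (g : ℝ → ℝ) (v : ℝ) : Prop :=
  ∀ ε : ℝ, 0 < ε → ∃ X₀ : ℕ, ∀ X : ℕ, X₀ ≤ X → ∀ α : F4,
    |∑ S ∈ SA D X α, g ((twD c D).kc S) - v * (SA D X α).card| ≤ ε * X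

theorem MF2.add {D : Dat ι} {c : F4} {g h : ℝ → ℝ} {v w : ℝ} (hg : MF2 D c g v)
    (hh : MF2 D c h w) : MF2 D c (fun x => g x + h x) (v + w) := by
  intro ε hε
  obtain ⟨X1, h1⟩ := hg (ε / 2) (by positivity)
  obtain ⟨X2, h2⟩ := hh (ε / 2) (by positivity)
  refine ⟨max X1 X2, fun X hX α => ?_⟩
  have h3 := h1 X (le_trans (le_max_left _ _) hX) α
  have h4 := h2 X (le_trans (le_max_right _ _) hX) α
  rw [sum_add_distrib]
  calc |∑ S ∈ SA D X α, g ((twD c D).kc S) + ∑ S ∈ SA D X α, h ((twD c D).kc S) -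
        (v + w) * (SA D X α).card|
      = |(∑ S ∈ SA D X α, g ((twD c D).kc S) - v * (SA D X α).card) +
        (∑ S ∈ SA D X α, h ((twD c D).kc S) - w * (SA D X α).card)| := by congr 1; ring
    _ ≤ _ := abs_add_le _ _
    _ ≤ ε / 2 * X + ε / 2 * X := add_le_add h3 h4
    _ = ε * X := by ring

theorem MF2.smul {D : Dat ι} {c : F4} {g : ℝ → ℝ} {v : ℝ} (hg : MF2 D c g v) (a : ℝ) :
    MF2 D c (fun x => a * g x) (a * v) := by
  intro ε hε
  obtain ⟨X1, h1⟩ := hg (ε / (|a| + 1)) (by positivity)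
  refine ⟨X1, fun X hX α => ?_⟩
  have h3 := h1 X hX α
  rw [← mul_sum, mul_assoc, ← mul_sub, abs_mul]
  have ha : 0 < |a| + 1 := by positivity
  calc |a| * |∑ S ∈ SA D X α, g ((twD c D).kc S) - v * (SA D X α).card|
      ≤ (|a| + 1) * (ε / (|a| + 1) * X) := by
        refine mul_le_mul (by linarith) h3 (abs_nonneg _) ha.le
    _ = ε * X := by field_simp

theorem MF2.congr {D : Dat ι} {c : F4} {g h : ℝ → ℝ} {v w : ℝ} (hg : MF2 D c g v)
    (h1 : ∀ x, h x = g x) (h2 : w = v) : MF2 D c h w := by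
  rw [h2, show h = g from funext h1]
  exact hg

theorem MF2_Fj {D : Dat ι} {c : F4} (hm : ∀ k, MF2 D c (fun x => x ^ k) (Nk k)) (j : ℕ) :
    ∀ m : ℕ, MF2 D c (fun x => x ^ m * Fj j x) (2 ^ (j ^ 2) * 4 ^ (j * m) * Nk m) := by
  induction j with
  | zero =>
    intro m
    refine (hm m).congr (fun x => ?_) ?_
    · simp [Fj]
    · simp
  | succ j ih =>
    intro m
    refine ((ih (m + 1)).add ((ih m).smul (-(4 ^ j)))).congr (fun x => ?_) ?_
    · rw [Fj, prod_range_succ, ← Fj]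
      ring
    · rw [Nk_succ']
      have e1 : (4 : ℝ) ^ (j * (m + 1)) = 4 ^ (j * m) * 4 ^ j := by rw [← pow_add]; ring_nf
      have e2 : (4 : ℝ) ^ ((j + 1) * m) = 4 ^ (j * m) * 4 ^ m := by rw [← pow_add]; ring_nf
      have e3 : (2 : ℝ) ^ ((j + 1) ^ 2) = 2 ^ (j ^ 2) * 4 ^ j * 2 := by
        have : (4 : ℝ) ^ j = 2 ^ (2 * j) := by rw [pow_mul]; norm_num
        rw [this, ← pow_add, ← pow_succ]
        ring_nf
      rw [e1, e2, e3]
      ring

theorem MF2_pK {D : Dat ι} {c : F4} (hm : ∀ k, MF2 D c (fun x => x ^ k) (Nk k)) (K : ℕ) :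
    MF2 D c (pK K) (sK K) := by
  induction K with
  | zero =>
    refine (hm 0).congr (fun x => ?_) ?_
    · simp [pK]
    · simp [sK, Nk]
  | succ K ih =>
    refine (ih.add ((MF2_Fj hm (K + 1) 0).smul
      ((-1) ^ (K + 1) / ∏ i ∈ range (K + 1), (4 ^ (i + 1) - 1)))).congr (fun x => pK_succ K x) ?_
    rw [sK, sum_range_succ, ← sK]
    simp [Nk]
    ring

/-- The twisted `k`-th moment. -/
def Mo2 (D : Dat ι) (k : ℕ) (c c' : F4) (X : ℕ) : ℝ :=
  ∑ S ∈ Sx ι X, ((twD c D).kc S : ℝ) ^ k * sg (F4.tr (c' * D.A S))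

theorem Mo2_zero (D : Dat ι) (c c' : F4) (X : ℕ) : Mo2 D 0 c c' X = Mo D 0 c' X := by
  simp only [Mo2, Mo, pow_zero]

/-- All the twisted moments have the right size. -/
theorem mo2OK {D : Dat ι} (hD : D.OK) (k : ℕ) (c c' : F4) (ε : ℝ) (hε : 0 < ε) :
    ∃ X₀ : ℕ, ∀ X : ℕ, X₀ ≤ X →
      |Mo2 D k c c' X - (if c' = 0 then (Nk k : ℝ) else 0) * (Sx ι X).card| ≤ ε * X := by
  rcases Nat.eq_zero_or_pos k with rfl | hk
  · simp only [Mo2_zero]
    exact Mo_zero hD.h3 c' ε hε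
  · obtain ⟨X0, h0⟩ := engine D hD (LSk2 k c c') (LSk2_OK hk c c') ε hε
    refine ⟨X0, fun X hX => ?_⟩
    have h1 := h0 X hX
    rw [sum_cU2] at h1
    have h2 : ∑ S ∈ Sx ι X, (((LSk2 k c c').m : ℝ)⁻¹) ^ S.card *
        ∑ f : S → Lab k, sg (D.eS (LSk2 k c c') S f) = Mo2 D k c c' X := by
      refine sum_congr rfl fun S _ => ?_
      rw [kc_pow_eq2, inv_pow, mul_comm, ← div_eq_mul_inv]
      have e : ((LSk2 k c c').m : ℝ) = 4 ^ k := by
        show (((4 ^ k : ℕ)) : ℝ) = 4 ^ k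
        push_cast
        rfl
      rw [e]
      rfl
    rw [h2] at h1
    exact h1

theorem MF2_of_moments {D : Dat ι} (hD : D.OK) (c : F4) (k : ℕ) :
    MF2 D c (fun x => x ^ k) (Nk k) := by
  intro ε hε
  set N : ℝ := (Nk k : ℝ) with hN
  have hN0 : 0 ≤ N := Nat.cast_nonneg _
  have hpos : 0 < ε / (1 + N) := by positivity
  choose X1 h1 using fun c' => mo2OK hD k c c' (ε / (1 + N)) hpos
  choose X2 h2 using fun c' => mo2OK hD 0 c c' (ε / (1 + N)) hpos
  refine ⟨∑ c', X1 c' + ∑ c', X2 c', fun X hX α => ?_⟩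
  have hX1 : ∀ c', X1 c' ≤ X := fun c' =>
    (single_le_sum (fun _ _ => Nat.zero_le _) (mem_univ c')).trans
      ((Nat.le_add_right _ _).trans hX)
  have hX2 : ∀ c', X2 c' ≤ X := fun c' =>
    (single_le_sum (fun _ _ => Nat.zero_le _) (mem_univ c')).trans
      ((Nat.le_add_left _ _).trans hX)
  have e1 : ∑ S ∈ SA D X α, ((twD c D).kc S : ℝ) ^ k =
      (∑ c' : F4, sg (F4.tr (c' * α)) * Mo2 D k c c' X) / 4 := sum_class D X α _
  have e0 : ((SA D X α).card : ℝ) =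
      (∑ c' : F4, sg (F4.tr (c' * α)) * Mo2 D 0 c c' X) / 4 := by
    rw [card_SA]
    simp only [Mo2_zero]
  rw [e1, e0]
  have e2 : (∑ c' : F4, sg (F4.tr (c' * α)) * Mo2 D k c c' X) / 4 -
      N * ((∑ c' : F4, sg (F4.tr (c' * α)) * Mo2 D 0 c c' X) / 4) =
      (∑ c' : F4, sg (F4.tr (c' * α)) * (Mo2 D k c c' X - N * Mo2 D 0 c c' X)) / 4 := by
    simp only [mul_sub, sum_sub_distrib]
    have : ∑ c' : F4, sg (F4.tr (c' * α)) * (N * Mo2 D 0 c c' X) =
        N * ∑ c' : F4, sg (F4.tr (c' * α)) * Mo2 D 0 c c' X := by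
      rw [mul_sum]
      exact sum_congr rfl fun c' _ => by ring
    rw [this]
    ring
  rw [e2]
  have e3 : ∀ c', |Mo2 D k c c' X - N * Mo2 D 0 c c' X| ≤ ε * X := by
    intro c'
    have h3 := h1 c' X (hX1 c')
    have h4 := h2 c' X (hX2 c')
    have h5 : Mo2 D k c c' X - N * Mo2 D 0 c c' X =
        (Mo2 D k c c' X - (if c' = 0 then (Nk k : ℝ) else 0) * (Sx ι X).card) -
        N * (Mo2 D 0 c c' X - (if c' = 0 then (Nk 0 : ℝ) else 0) * (Sx ι X).card) := by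
      rw [← hN]
      split_ifs
      · simp only [Nk, prod_range_zero, Nat.cast_one]
        ring
      · ring
    rw [h5]
    calc _ ≤ |Mo2 D k c c' X - (if c' = 0 then (Nk k : ℝ) else 0) * (Sx ι X).card| +
          |N * (Mo2 D 0 c c' X - (if c' = 0 then (Nk 0 : ℝ) else 0) * (Sx ι X).card)| :=
            abs_sub _ _
      _ ≤ ε / (1 + N) * X + N * (ε / (1 + N) * X) := by
          rw [abs_mul, abs_of_nonneg hN0]
          exact add_le_add h3 (mul_le_mul_of_nonneg_left h4 hN0)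
      _ = ε * X := by field_simp
  rw [abs_div, abs_of_pos (by norm_num : (0 : ℝ) < 4), div_le_iff₀ (by norm_num)]
  calc |∑ c' : F4, sg (F4.tr (c' * α)) * (Mo2 D k c c' X - N * Mo2 D 0 c c' X)|
      ≤ ∑ c' : F4, |sg (F4.tr (c' * α)) * (Mo2 D k c c' X - N * Mo2 D 0 c c' X)| :=
        abs_sum_le_sum_abs _ _
    _ ≤ ∑ _c : F4, ε * X := by
        refine sum_le_sum fun c' _ => ?_
        rw [abs_mul, abs_sg, one_mul]
        exact e3 c'
    _ = ε * X * 4 := by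
        rw [sum_const, card_univ, F4.card_F4, nsmul_eq_mul]
        push_cast
        ring

/-- **Phase 2, part D.** In every class `α` the lower density of the `S` for which the matrix of
the class `c` is invertible is at least the infinite product. -/
theorem density2 {D : Dat ι} (hD : D.OK) (c : F4) {κ : ℝ} (hκ : κ < cinf) (ε : ℝ) (hε : 0 < ε) :
    ∃ X₀ : ℕ, ∀ X : ℕ, X₀ ≤ X → ∀ α : F4,
      κ * (((Sx ι X).filter fun S => D.A S = α).card : ℝ) - ε * X ≤
        ((Sx ι X).filter fun S => D.A S = α ∧ ((twD c D).M S).det ≠ 0).card := by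
  obtain ⟨K, hK, h1⟩ := exists_odd hκ
  obtain ⟨X0, h0⟩ := MF2_pK (MF2_of_moments hD c) K ε hε
  refine ⟨X0, fun X hX α => ?_⟩
  have h2 := h0 X hX α
  have h3 : ∑ S ∈ SA D X α, pK K ((twD c D).kc S) ≤
      (((Sx ι X).filter fun S => D.A S = α ∧ ((twD c D).M S).det ≠ 0).card : ℝ) := by
    rw [← filter_filter, card_eq_sum_ones, sum_filter]
    push_cast
    refine sum_le_sum fun S _ => ?_
    split_ifs with hd
    · rw [(kc_eq_one (twD c D) S).2 hd]
      push_cast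
      rw [pK_one]
    · obtain ⟨r, hr⟩ := kc_pow (twD c D) S
      have hr0 : r ≠ 0 := by
        intro h0
        rw [h0, pow_zero] at hr
        exact hd ((kc_eq_one (twD c D) S).1 hr)
      rw [hr]
      push_cast
      exact (pK_pow K r hr0).1 hK
  have h4 := (abs_le.1 h2).1
  have h5 := mul_le_mul_of_nonneg_right h1.le (Nat.cast_nonneg (α := ℝ) (SA D X α).card)
  rw [SA] at h3 h4 h5
  linarith

end

end Pool.Agent.Lib.MP_1a91b9_ntH2.Db
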