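import Pool.Agent.Lib.MP_1a91b9_ntH.D.K4

/-!
# MP_1a91b9_nt (TwistDensity), phase 2, part D: (K3) for the class `c`
-/

set_option autoImplicit false

namespace Pool.Agent.Lib.MP_1a91b9_ntH2.Db

open Finset Pool.Agent.Lib.MP_1a91b9_ntH Pool.Agent.Lib.MP_1a91b9_ntH.Da

variable {k : ℕ}

/-- The linear term for the class `c` and the character `c'`. -/
def gam2 (c c' : F4) (l : Lab k) : F4 := gam c' l + c * F4.of (Qf l)

/-- The additional linear term. -/
def Xt (c : F4) (W : Finset (Lab k)) (l0 : Lab k) (A : Lab k → F4) : ZMod 2 :=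
  ∑ l ∈ W, Qf (l + l0) * F4.tr (c * A l)

/-- The exponent `θ_U(A)` with `gam2`. -/
def theta2 (o : Lab k → ℕ) (c c' : F4) (U : Finset (Lab k)) (A : Lab k → F4) : ZMod 2 :=
  ∑ l ∈ U, F4.tr (gam2 c c' l * A l) +
    ∑ l ∈ U, ∑ m ∈ U, if o l < o m then Phi m l * F4.tr (A l * A m) else 0

/-- The average of `(-1)^θ`. -/
noncomputable def cU2 (o : Lab k → ℕ) (c c' : F4) (U : Finset (Lab k)) : ℝ :=
  (∑ A : Lab k → F4, sg (theta2 o c c' U A)) / Fintype.card (Lab k → F4)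

theorem tr_gam2 (c c' : F4) (l : Lab k) (a : F4) :
    F4.tr (gam2 c c' l * a) = F4.tr (gam c' l * a) + Qf l * F4.tr (c * a) := by
  have hd : ∀ (c a : F4) (t : ZMod 2), F4.tr (c * F4.of t * a) = t * F4.tr (c * a) := by decide
  rw [gam2, add_mul, F4.tr_add, hd]

/-- The exponent on the coset `l0 + W`. -/
def EE2 (o : Lab k → ℕ) (c c' : F4) (W : Finset (Lab k)) (l0 : Lab k) (A : Lab k → F4) : ZMod 2 :=
  EE o c' W l0 A + Xt c W l0 A

theorem theta2_eq (o : Lab k → ℕ) (c c' : F4) (U : Finset (Lab k)) (A : Lab k → F4) :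
    theta2 o c c' U A = theta o c' U A + ∑ l ∈ U, Qf l * F4.tr (c * A l) := by
  rw [theta2, theta]
  simp only [tr_gam2, sum_add_distrib]
  ring

theorem theta2_sh (o : Lab k → ℕ) (c c' : F4) (W : Finset (Lab k)) (l0 : Lab k)
    (A : Lab k → F4) :
    theta2 o c c' (sh l0 W) A = EE2 (fun l => o (l + l0)) c c' W l0 (fun l => A (l + l0)) := by
  have hinj : Set.InjOn (fun x : Lab k => x + l0) (W : Set (Lab k)) :=
    fun x _ y _ hxy => add_left_injective l0 hxy
  rw [theta2_eq, theta_sh, EE2, Xt, sh, sum_image hinj]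

theorem Xt_add (c : F4) (W : Finset (Lab k)) (l0 : Lab k) (A B : Lab k → F4) :
    Xt c W l0 (A + B) = Xt c W l0 A + Xt c W l0 B := by
  rw [Xt, Xt, Xt, ← sum_add_distrib]
  refine sum_congr rfl fun l _ => ?_
  rw [Pi.add_apply, mul_add c, F4.tr_add]
  ring

theorem Xt_single (c : F4) {W : Finset (Lab k)} (l0 : Lab k) {q : Lab k} (hq : q ∈ W) (t : F4) :
    Xt c W l0 (Pi.single q t) = Qf (q + l0) * F4.tr (c * t) := by
  rw [Xt, sum_eq_single q]
  · rw [Pi.single_eq_same]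
  · intro m _ hm
    rw [Pi.single_eq_of_ne hm, mul_zero c, F4.tr_zero, mul_zero]
  · intro h
    exact absurd hq h

/-- If `W` is not hermitian, the average is zero. -/
theorem sum_EE2_not_her (o : Lab k → ℕ) (ho : Function.Injective o) (c c' : F4)
    {W : Finset (Lab k)} (hW : Mx W) (h : ¬ Her W) (l0 : Lab k) :
    ∑ A, sg (EE2 o c c' W l0 A) = 0 := by
  unfold Her at h
  push Not at h
  obtain ⟨a, ha, b, hb, hab⟩ := h
  have hab' : a + b ∈ W := hW.add_mem ha hb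
  have hQa := hW.unl.Qf hW.zero ha
  have hQb := hW.unl.Qf hW.zero hb
  have hB := hW.unl.Bf hW.zero ha hb
  have hQa0 := hQa
  have hQb0 := hQb
  have hB0 := hB
  rw [Qf] at hQa hQb
  rw [Bf] at hB
  obtain ⟨t, ht⟩ : ∃ t : F4, F4.tr t = 1 := ⟨F4.w, rfl⟩
  set K : Lab k → F4 := Pi.single 0 t + (Pi.single a t + (Pi.single b t + Pi.single (a + b) t))
    with hK
  refine sum_sg_eq_zero (fun A => EE2 o c c' W l0 A) K fun A => ?_
  have e1 : ∀ A, EE2 o c c' W l0 A = Ln c' W l0 A + PP o W l0 A + Xt c W l0 A := fun A => rfl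
  rw [e1, e1, Ln_add, PP_add o ho hW, Xt_add]
  have hpol : pol W l0 A K = 0 := by
    rw [hK, pol_add_right, pol_add_right, pol_add_right, pol_single l0 _ hW.zero,
      pol_single l0 _ ha, pol_single l0 _ hb, pol_single l0 _ hab', ← sum_add_distrib,
      ← sum_add_distrib, ← sum_add_distrib]
    refine sum_eq_zero fun l _ => ?_
    have := Phi_four (l := l) (l0 := l0) (a := a) (b := b)
    linear_combination F4.tr (A l * t) * this
  have hX : Xt c W l0 K = 0 := by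
    rw [hK, Xt_add, Xt_add, Xt_add, Xt_single c l0 hW.zero, Xt_single c l0 ha, Xt_single c l0 hb,
      Xt_single c l0 hab']
    rw [zero_add, Qf_add a l0, Qf_add b l0, Qf_add (a + b) l0, Qf_add a b, Bf_add', hQa0, hQb0, hB0]
    generalize Qf l0 = x1
    generalize Bf a l0 = x2
    generalize Bf b l0 = x3
    generalize F4.tr (c * t) = x4
    revert x1 x2 x3 x4
    decide
  have hPK : PP o W l0 K = F4.tr (a.2 ⬝ᵥ b.1) := by
    rw [hK, PP_add o ho hW, PP_add o ho hW, PP_add o ho hW, PP_single, PP_single, PP_single,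
      PP_single, pol_add_right, pol_add_right, pol_add_right, pol_single_single l0 hW.zero ha,
      pol_single_single l0 hW.zero hb, pol_single_single l0 hW.zero hab',
      pol_single_single l0 ha hb, pol_single_single l0 ha hab', pol_single_single l0 hb hab',
      F4.tr_sq, ht]
    simp only [Phi_sh, Prod.fst_add, dotProduct_add, F4.tr_add,
      Prod.fst_zero, Prod.snd_zero, dotProduct_zero, zero_dotProduct, F4.tr_zero, hQa, hQb]
    have hB' : F4.tr (b.2 ⬝ᵥ a.1) = F4.tr (a.2 ⬝ᵥ b.1) :=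
      add_left_cancel (hB.trans (zadd_self _).symm)
    rw [hB']
    generalize F4.tr (a.2 ⬝ᵥ b.1) = x1
    generalize F4.tr (l0.2 ⬝ᵥ a.1) = x2
    generalize F4.tr (l0.2 ⬝ᵥ b.1) = x3
    revert x1 x2 x3
    decide
  have hLK : Ln c' W l0 K = F4.tr (F4.cj (a.2 ⬝ᵥ b.1 + b.2 ⬝ᵥ a.1) * t) := by
    rw [hK, Ln_add, Ln_add, Ln_add, Ln_single c' l0 hW.zero, Ln_single c' l0 ha,
      Ln_single c' l0 hb, Ln_single c' l0 hab', ← gam_four c' (l0 := l0), add_mul, add_mul, add_mul,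
      F4.tr_add, F4.tr_add, F4.tr_add]
    ring
  have hfin : ∀ x y t : F4, F4.tr x + F4.tr y = 0 → F4.cj x ≠ y → F4.tr t = 1 →
      F4.tr (F4.cj (x + y) * t) + F4.tr x = 1 := by decide
  have hKK := hfin _ _ t hB hab ht
  rw [← hLK, ← hPK] at hKK
  rw [hpol, hX]
  linear_combination hKK

/-! ### The hermitian case -/

/-- The coefficient of `w0`. -/
def bet (c a : F4) : F4 := F4.cj a + F4.of (F4.tr (c * a))

theorem Xt_eq (c : F4) {W : Finset (Lab k)} (hW : Mx W) (l0 : Lab k) (A : Lab k → F4) :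
    Xt c W l0 A = F4.tr (l0.1 ⬝ᵥ (F4.of (F4.tr (c * aT W A)) • l0.2)) +
      F4.tr (l0.2 ⬝ᵥ (c • vR W A + F4.cj c • vR' W A)) +
      F4.tr (l0.1 ⬝ᵥ (c • vS W A + F4.cj c • vS' W A)) := by
  have h1 : ∀ l ∈ W, Qf (l + l0) * F4.tr (c * A l) = Qf l0 * F4.tr (c * A l) +
      (F4.tr (c * A l * (l0.2 ⬝ᵥ l.1)) + F4.tr (F4.cj c * F4.cj (A l) * (l0.2 ⬝ᵥ l.1))) +
      (F4.tr (c * A l * (l0.1 ⬝ᵥ l.2)) + F4.tr (F4.cj c * F4.cj (A l) * (l0.1 ⬝ᵥ l.2))) := by
    intro l hl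
    have hQ := hW.unl.Qf hW.zero hl
    rw [Qf_add, hQ, zero_add, Bf, dotProduct_comm l.2 l0.1]
    have hd : ∀ x y : F4, F4.tr y * F4.tr x = F4.tr (x * y) + F4.tr (F4.cj x * y) := by decide
    rw [add_mul, add_mul, hd, hd, F4.cj_mul]
    ring
  rw [Xt, sum_congr rfl h1, sum_add_distrib, sum_add_distrib, ← mul_sum, ← F4.tr_sum, ← mul_sum]
  have e1 : Qf l0 * F4.tr (c * ∑ l ∈ W, A l) =
      F4.tr (l0.1 ⬝ᵥ (F4.of (F4.tr (c * aT W A)) • l0.2)) := by
    rw [dotProduct_smul, smul_eq_mul, Qf, dotProduct_comm l0.2 l0.1, aT]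
    have hd : ∀ (t : ZMod 2) (x : F4), F4.tr x * t = F4.tr (F4.of t * x) := by decide
    exact hd _ _
  have e2 : ∑ l ∈ W, (F4.tr (c * A l * (l0.2 ⬝ᵥ l.1)) +
      F4.tr (F4.cj c * F4.cj (A l) * (l0.2 ⬝ᵥ l.1))) =
      F4.tr (l0.2 ⬝ᵥ (c • vR W A + F4.cj c • vR' W A)) := by
    rw [dotProduct_add, dotProduct_smul, dotProduct_smul, vR, vR', dotProduct_sum, dotProduct_sum,
      smul_eq_mul, smul_eq_mul, mul_sum, mul_sum, F4.tr_add, F4.tr_sum, F4.tr_sum,
      ← sum_add_distrib]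
    refine sum_congr rfl fun l _ => ?_
    rw [dotProduct_smul, dotProduct_smul, smul_eq_mul, smul_eq_mul, mul_assoc, mul_assoc]
  have e3 : ∑ l ∈ W, (F4.tr (c * A l * (l0.1 ⬝ᵥ l.2)) +
      F4.tr (F4.cj c * F4.cj (A l) * (l0.1 ⬝ᵥ l.2))) =
      F4.tr (l0.1 ⬝ᵥ (c • vS W A + F4.cj c • vS' W A)) := by
    rw [dotProduct_add, dotProduct_smul, dotProduct_smul, vS, vS', dotProduct_sum, dotProduct_sum,
      smul_eq_mul, smul_eq_mul, mul_sum, mul_sum, F4.tr_add, F4.tr_sum, F4.tr_sum,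
      ← sum_add_distrib]
    refine sum_congr rfl fun l _ => ?_
    rw [dotProduct_smul, dotProduct_smul, smul_eq_mul, smul_eq_mul, mul_assoc, mul_assoc]
  rw [e1, e2, e3]

theorem EE2_eq (o : Lab k → ℕ) (ho : Function.Injective o) (c c' : F4) {W : Finset (Lab k)}
    (hW : Mx W) (h : Her W) (l0 : Lab k) (A : Lab k → F4) :
    EE2 o c c' W l0 A = F4.tr (c' * aT W A) + F4.tr (vS W A ⬝ᵥ vR W A) +
      F4.tr (l0.2 ⬝ᵥ ((aT W A + 1 + c) • vR W A + (F4.cj (aT W A) + F4.cj c) • vR' W A)) +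
      F4.tr (l0.1 ⬝ᵥ (bet c (aT W A) • l0.2 + (c • vS W A + (1 + F4.cj c) • vS' W A))) := by
  rw [EE2, EE_eq o ho c' hW h, Xt_eq c hW, bet]
  simp only [dotProduct_add, dotProduct_smul, smul_eq_mul, add_mul, one_mul, F4.tr_add, add_smul]
  ring

theorem sum_l02 (o : Lab k → ℕ) (ho : Function.Injective o) (c c' : F4) {W : Finset (Lab k)}
    (hW : Mx W) (h : Her W) (A : Lab k → F4) :
    ∑ l0, sg (EE2 o c c' W l0 A) = 4 ^ k * sg (F4.tr (c' * aT W A)) *
      (if bet c (aT W A) ≠ 0 then 1 else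
      if c • vS W A + (1 + F4.cj c) • vS' W A = 0 ∧
        (aT W A + 1 + c) • vR W A + (F4.cj (aT W A) + F4.cj c) • vR' W A = 0 then
        4 ^ k * sg (F4.tr (vS W A ⬝ᵥ vR W A)) else 0) := by
  have h1 : ∑ l0, sg (EE2 o c c' W l0 A) = ∑ w0 : Fin k → F4,
      sg (F4.tr (c' * aT W A) + F4.tr (vS W A ⬝ᵥ vR W A) +
        F4.tr (w0 ⬝ᵥ ((aT W A + 1 + c) • vR W A + (F4.cj (aT W A) + F4.cj c) • vR' W A))) *
      (if bet c (aT W A) • w0 + (c • vS W A + (1 + F4.cj c) • vS' W A) = 0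
        then (4 ^ k : ℝ) else 0) := by
    rw [Fintype.sum_prod_type_right]
    refine sum_congr rfl fun w0 _ => ?_
    rw [← sum_dot, mul_sum]
    refine sum_congr rfl fun v0 _ => ?_
    rw [EE2_eq o ho c c' hW h, sg_add]
  rw [h1]
  set V : Fin k → F4 := c • vS W A + (1 + F4.cj c) • vS' W A with hV
  by_cases hb : bet c (aT W A) = 0
  · rw [if_neg (not_not.2 hb)]
    simp only [hb, zero_smul, zero_add]
    by_cases hS : V = 0
    · simp only [hS, if_true, true_and, sg_add]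
      rw [← sum_mul, ← mul_sum, sum_dot]
      split_ifs
      · ring
      · ring
    · have hn : ¬ (V = 0 ∧ (aT W A + 1 + c) • vR W A +
          (F4.cj (aT W A) + F4.cj c) • vR' W A = 0) := fun hh => hS hh.1
      rw [if_neg hn, mul_zero (4 ^ k * sg (F4.tr (c' * aT W A)))]
      refine sum_eq_zero fun w0 _ => ?_
      rw [if_neg hS, mul_zero]
  · rw [if_pos hb, mul_one]
    set w1 : Fin k → F4 := (bet c (aT W A))⁻¹ • V with hw1
    rw [sum_eq_single w1]
    · have hz : bet c (aT W A) • w1 + V = 0 := by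
        rw [hw1, smul_smul, mul_inv_cancel₀ hb, one_smul, vadd_self]
      rw [if_pos hz]
      have h2 : F4.tr (vS W A ⬝ᵥ vR W A) + F4.tr (w1 ⬝ᵥ ((aT W A + 1 + c) • vR W A +
          (F4.cj (aT W A) + F4.cj c) • vR' W A)) = 0 := by
        have hq : F4.cj (vS W A ⬝ᵥ vR' W A) = vS W A ⬝ᵥ vR' W A := by
          simp only [vS, vR', sum_dotProduct, dotProduct_sum, smul_dotProduct, dotProduct_smul,
            smul_eq_mul, F4.cj_sum, F4.cj_mul, F4.cj_cj, mul_sum]
          rw [sum_comm]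
          refine sum_congr rfl fun l hl => sum_congr rfl fun m hm => ?_
          rw [h l hl m hm]
          ring
        have hz' : vS' W A ⬝ᵥ vR' W A = F4.cj (vS W A ⬝ᵥ vR W A) := by
          rw [← her_RS h, F4.cj_cj]
        have hp := her_SR h A
        rw [hw1, hV]
        simp only [dotProduct_add, add_dotProduct, smul_dotProduct, dotProduct_smul, smul_eq_mul]
        rw [hz']
        have hd : ∀ c a z : F4, bet c a ≠ 0 →
            (F4.tr z + F4.tr ((bet c a)⁻¹ * (c * ((a + 1 + c) * z)) +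
              (bet c a)⁻¹ * ((1 + F4.cj c) * ((F4.cj a + F4.cj c) * F4.cj z))) = 0) := by decide
        have hd1 : ∀ c a p : F4, bet c a ≠ 0 → F4.cj p = p →
            F4.tr ((bet c a)⁻¹ * ((1 + F4.cj c) * ((a + 1 + c) * p))) = 0 := by decide
        have hd2 : ∀ c a q : F4, bet c a ≠ 0 → F4.cj q = q →
            F4.tr ((bet c a)⁻¹ * (c * ((F4.cj a + F4.cj c) * q))) = 0 := by decide
        have k0 := hd c (aT W A) (vS W A ⬝ᵥ vR W A) hb
        have k1 := hd1 c (aT W A) _ hb hp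
        have k2 := hd2 c (aT W A) _ hb hq
        rw [F4.tr_add] at k0
        have e : (aT W A + 1 + c) * ((bet c (aT W A))⁻¹ * (c * vS W A ⬝ᵥ vR W A +
              (1 + F4.cj c) * vS' W A ⬝ᵥ vR W A)) +
            (F4.cj (aT W A) + F4.cj c) * ((bet c (aT W A))⁻¹ * (c * vS W A ⬝ᵥ vR' W A +
              (1 + F4.cj c) * F4.cj (vS W A ⬝ᵥ vR W A))) =
            (bet c (aT W A))⁻¹ * (c * ((aT W A + 1 + c) * vS W A ⬝ᵥ vR W A)) +
            (bet c (aT W A))⁻¹ * ((1 + F4.cj c) * ((F4.cj (aT W A) + F4.cj c) *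
              F4.cj (vS W A ⬝ᵥ vR W A))) +
            (bet c (aT W A))⁻¹ * ((1 + F4.cj c) * ((aT W A + 1 + c) * vS' W A ⬝ᵥ vR W A)) +
            (bet c (aT W A))⁻¹ * (c * ((F4.cj (aT W A) + F4.cj c) * vS W A ⬝ᵥ vR' W A)) := by
          ring
        rw [e, F4.tr_add, F4.tr_add, F4.tr_add, k1, k2, add_zero, add_zero]
        exact k0
      rw [add_assoc, h2, add_zero]
      ring
    · intro w0 _ hne
      rw [if_neg, mul_zero]
      intro hz
      apply hne
      have h3 : bet c (aT W A) • w0 = V := by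
        have := congrArg (fun z => z + V) hz
        simp only [add_assoc, vadd_self, add_zero, zero_add] at this
        exact this
      rw [hw1, ← h3, smul_smul, inv_mul_cancel₀ hb, one_smul]
    · intro h
      exact absurd (mem_univ _) h

end Pool.Agent.Lib.MP_1a91b9_ntH2.Db
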