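import Pool.Agent.Lib.MP_1a91b9_ntH2.D.Kc

/-!
# MP_1a91b9_nt (TwistDensity), phase 2, part D: (K3) for the class `c`, end
-/

set_option autoImplicit false

namespace Pool.Agent.Lib.MP_1a91b9_ntH2.Db

open Finset Pool.Agent.Lib.MP_1a91b9_ntH Pool.Agent.Lib.MP_1a91b9_ntH.Da

variable {k : ℕ}

/-- The homomorphism `A ↦ (∑ A_l, ∑ A_l * l, ∑ conj A_l * l)`. -/
def gG (W : Finset (Lab k)) : (Lab k → F4) →+ F4 × Lab k × Lab k where
  toFun A := (aT W A, (vR W A, vS' W A), (vR' W A, vS W A))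
  map_zero' := by
    simp [aT, vR, vS', vR', vS, Da.F4.cj_zero]
  map_add' A B := by
    simp [aT, vR, vS', vR', vS, Da.F4.cj_add, add_smul, sum_add_distrib]

theorem vS_eq (W : Finset (Lab k)) (A : Lab k → F4) :
    ((vR' W A, vS W A) : Lab k) = (vR W (fun l => F4.cj (A l)), vS' W (fun l => F4.cj (A l))) := by
  rw [vR', vS, vR, vS']
  simp only [Da.F4.cj_cj]

theorem gG_single {W : Finset (Lab k)} {q : Lab k} (hq : q ∈ W) (t : F4) :
    gG W (Pi.single q t) = (t, st t q, st (F4.cj t) q) := by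
  have h1 := gH_single hq t
  have h1a : aT W (Pi.single q t) = t := congrArg Prod.fst h1
  have h1b : ((vR W (Pi.single q t), vS' W (Pi.single q t)) : Lab k) = st t q :=
    congrArg Prod.snd h1
  have h2 : (fun l => F4.cj ((Pi.single q t : Lab k → F4) l)) = Pi.single q (F4.cj t) := by
    funext l
    by_cases hl : l = q
    · rw [hl, Pi.single_eq_same, Pi.single_eq_same]
    · rw [Pi.single_eq_of_ne hl, Pi.single_eq_of_ne hl, Da.F4.cj_zero]
  have h3 := gH_single hq (F4.cj t)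
  have h3b : ((vR W (Pi.single q (F4.cj t)), vS' W (Pi.single q (F4.cj t))) : Lab k) =
      st (F4.cj t) q := congrArg Prod.snd h3
  show (aT W (Pi.single q t), ((vR W (Pi.single q t), vS' W (Pi.single q t)) : Lab k),
    ((vR' W (Pi.single q t), vS W (Pi.single q t)) : Lab k)) = _
  rw [h1a, h1b, vS_eq, h2, h3b]

theorem gG_surj {W : Finset (Lab k)} (hW : Mx W) (h : Her W) (a : F4) {l m : Lab k} (hl : l ∈ W)
    (hm : m ∈ W) : ∃ A, gG W A = (a, l, m) := by
  have hI : Iso k W := Iso.of_Lgs (mem_Lgs.2 ⟨hW, h⟩)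
  have hlm : l + m ∈ W := hW.add_mem hl hm
  have hn : l + st F4.w (l + m) ∈ W := hW.add_mem hl (hI.smul F4.w _ hlm)
  refine ⟨Pi.single 0 (a + 1 + F4.w) + (Pi.single (l + st F4.w (l + m)) 1 +
    Pi.single (l + m) F4.w), ?_⟩
  rw [map_add, map_add, gG_single hW.zero, gG_single hn, gG_single hlm]
  have h1 : a + 1 + F4.w + (1 + F4.w) = a := by
    have hd : ∀ a : F4, a + 1 + F4.w + (1 + F4.w) = a := by decide
    exact hd a
  have h0 : ∀ t : F4, st t (0 : Lab k) = 0 := fun t => by simp [st]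
  have h2 : st 1 (l + st F4.w (l + m)) + st F4.w (l + m) = l := by
    rw [st_one, ladd_ladd]
  have h3 : st (F4.cj 1) (l + st F4.w (l + m)) + st (F4.cj F4.w) (l + m) = m := by
    rw [Da.F4.cj_one, st_one, add_assoc, ← st_add]
    have : F4.w + F4.cj F4.w = 1 := by decide
    rw [this, st_one, ← add_assoc, ladd_self, zero_add]
  rw [h0, h0]
  refine Prod.ext ?_ (Prod.ext ?_ ?_)
  · exact h1
  · show 0 + (st 1 (l + st F4.w (l + m)) + st F4.w (l + m)) = l
    rw [zero_add, h2]
  · show 0 + (st (F4.cj 1) (l + st F4.w (l + m)) + st (F4.cj F4.w) (l + m)) = m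
    rw [zero_add, h3]

/-- The number of class vectors over `0`. -/
noncomputable def kapG (W : Finset (Lab k)) : ℕ :=
  (univ.filter fun A : Lab k → F4 => gG W A = 0).card

theorem card_fibG {W : Finset (Lab k)} (hW : Mx W) (h : Her W) (a : F4) {l m : Lab k}
    (hl : l ∈ W) (hm : m ∈ W) :
    (univ.filter fun A : Lab k → F4 => gG W A = (a, l, m)).card = kapG W := by
  obtain ⟨A0, hA0⟩ := gG_surj hW h a hl hm
  rw [kapG]
  refine card_nbij' (fun A => A + A0) (fun A => A + A0) ?_ ?_ ?_ ?_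
  · intro A hA
    simp only [coe_filter, mem_univ, true_and, Set.mem_ofPred_eq] at hA ⊢
    have h1 : gG W A0 + gG W A0 = 0 := by rw [← map_add, fun_add_self, map_zero]
    rw [map_add, hA, ← hA0, h1]
  · intro A hA
    simp only [coe_filter, mem_univ, true_and, Set.mem_ofPred_eq] at hA ⊢
    rw [map_add, hA, hA0, zero_add]
  · intro A _
    show A + A0 + A0 = A
    rw [add_assoc, fun_add_self, add_zero]
  · intro A _
    show A + A0 + A0 = A
    rw [add_assoc, fun_add_self, add_zero]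

theorem gG_mem {W : Finset (Lab k)} (hW : Mx W) (h : Her W) (A : Lab k → F4) :
    gG W A ∈ (univ : Finset F4) ×ˢ (W ×ˢ W) := by
  rw [mem_product, mem_product]
  refine ⟨mem_univ _, mem_of_her hW h A, ?_⟩
  show ((vR' W A, vS W A) : Lab k) ∈ W
  rw [vS_eq]
  exact mem_of_her hW h _

theorem sum_gG {W : Finset (Lab k)} (hW : Mx W) (h : Her W) (f : F4 × Lab k × Lab k → ℝ) :
    ∑ A : Lab k → F4, f (gG W A) = kapG W * ∑ a : F4, ∑ l ∈ W, ∑ m ∈ W, f (a, l, m) := by
  have e : ∑ a : F4, ∑ l ∈ W, ∑ m ∈ W, f (a, l, m) =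
      ∑ y ∈ (univ : Finset F4) ×ˢ (W ×ˢ W), f y := by
    rw [sum_product]
    refine sum_congr rfl fun a _ => ?_
    rw [sum_product]
  rw [e, ← sum_fiberwise_of_maps_to (s := univ) (g := fun A => gG W A)
    (fun A _ => gG_mem hW h A), mul_sum]
  refine sum_congr rfl fun y hy => ?_
  rw [mem_product, mem_product] at hy
  rw [sum_congr rfl (g := fun _ => f y) fun A hA => by rw [(mem_filter.1 hA).2], sum_const,
    nsmul_eq_mul]
  congr 1
  exact_mod_cast card_fibG hW h y.1 hy.2.1 hy.2.2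

/-- The function summed over the class vectors. -/
noncomputable def Ffun (k : ℕ) (c c' : F4) (y : F4 × Lab k × Lab k) : ℝ :=
  4 ^ k * sg (F4.tr (c' * y.1)) *
      (if bet c y.1 ≠ 0 then 1 else
      if c • y.2.2.2 + (1 + F4.cj c) • y.2.1.2 = 0 ∧
        (y.1 + 1 + c) • y.2.1.1 + (F4.cj y.1 + F4.cj c) • y.2.2.1 = 0 then
        4 ^ k * sg (F4.tr (y.2.2.2 ⬝ᵥ y.2.1.1)) else 0)

theorem F4_cases (x : F4) : x = 0 ∨ x = 1 ∨ x = F4.w ∨ x = 1 + F4.w := by revert x; decide

theorem v_eq_iff {x y : Fin k → F4} : x + y = 0 ↔ x = y := by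
  constructor
  · intro h
    have := congrArg (fun z => z + y) h
    simp only [add_assoc, vadd_self, add_zero, zero_add] at this
    exact this
  · rintro rfl
    exact vadd_self x

theorem smul_eq_zero' {t : F4} (ht : t ≠ 0) {x : Fin k → F4} : t • x = 0 ↔ x = 0 := by
  constructor
  · intro h
    have := congrArg (fun z => t⁻¹ • z) h
    simp only [smul_smul, inv_mul_cancel₀ ht, one_smul, smul_zero] at this
    exact this
  · rintro rfl
    exact smul_zero _

theorem cond_iff (c a : F4) (h : bet c a = 0) (l m : Lab k) :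
    (c • m.2 + (1 + F4.cj c) • l.2 = 0 ∧ (a + 1 + c) • l.1 + (F4.cj a + F4.cj c) • m.1 = 0) ↔
    (if c = 0 then l = 0 else if c = 1 then m = 0 else l = m) := by
  have hw0 : F4.w ≠ 0 := by decide
  have hw1 : F4.w ≠ 1 := by decide
  have hv0 : (1 + F4.w : F4) ≠ 0 := by decide
  have hv1 : (1 + F4.w : F4) ≠ 1 := by decide
  have h10 : (1 : F4) ≠ 0 := by decide
  have key : ∀ t : F4, t ≠ 0 → ((t • m.2 + t • l.2 = 0 ∧ t • l.1 + t • m.1 = 0) ↔ l = m) := by
    intro t ht
    rw [← smul_add, ← smul_add, smul_eq_zero' ht, smul_eq_zero' ht, v_eq_iff, v_eq_iff]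
    constructor
    · rintro ⟨h1, h2⟩
      exact Prod.ext h2 h1.symm
    · rintro rfl
      exact ⟨rfl, rfl⟩
  rcases F4_cases c with rfl | rfl | rfl | rfl
  · have ha : a = 0 := by
      revert h; revert a; decide
    subst ha
    rw [if_pos rfl]
    have e1 : (1 : F4) + F4.cj 0 = 1 := by decide
    have e2 : (0 : F4) + 1 + 0 = 1 := by decide
    have e3 : F4.cj 0 + F4.cj 0 = 0 := by decide
    rw [e1, e2, e3, zero_smul, zero_smul, one_smul, one_smul, zero_add, add_zero]
    exact ⟨fun hh => Prod.ext hh.2 hh.1, fun hh => by rw [hh]; exact ⟨rfl, rfl⟩⟩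
  · have ha : a = 0 := by
      revert h; revert a; decide
    subst ha
    rw [if_neg h10, if_pos rfl]
    have e1 : (1 : F4) + F4.cj 1 = 0 := by decide
    have e2 : (0 : F4) + 1 + 1 = 0 := by decide
    have e3 : F4.cj 0 + F4.cj 1 = 1 := by decide
    rw [e1, e2, e3, zero_smul, zero_smul, one_smul, one_smul, zero_add, add_zero]
    exact ⟨fun hh => Prod.ext hh.2 hh.1, fun hh => by rw [hh]; exact ⟨rfl, rfl⟩⟩
  · rw [if_neg hw0, if_neg hw1]
    have ha : a = 0 ∨ a = 1 := by
      revert h; revert a; decide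
    rcases ha with rfl | rfl
    · have e1 : (1 : F4) + F4.cj F4.w = F4.w := by decide
      have e2 : (0 : F4) + 1 + F4.w = 1 + F4.w := by decide
      have e3 : F4.cj 0 + F4.cj F4.w = 1 + F4.w := by decide
      rw [e1, e2, e3, ← key F4.w hw0]
      have k1 : F4.w • l.1 + F4.w • m.1 = 0 ↔ (1 + F4.w) • l.1 + (1 + F4.w) • m.1 = 0 := by
        rw [← smul_add, ← smul_add, smul_eq_zero' hw0, smul_eq_zero' hv0]
      rw [k1]
    · have e1 : (1 : F4) + F4.cj F4.w = F4.w := by decide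
      have e2 : (1 : F4) + 1 + F4.w = F4.w := by decide
      have e3 : F4.cj 1 + F4.cj F4.w = F4.w := by decide
      rw [e1, e2, e3]
      exact key F4.w hw0
  · rw [if_neg hv0, if_neg hv1]
    have ha : a = 0 ∨ a = 1 := by
      revert h; revert a; decide
    rcases ha with rfl | rfl
    · have e1 : (1 : F4) + F4.cj (1 + F4.w) = 1 + F4.w := by decide
      have e2 : (0 : F4) + 1 + (1 + F4.w) = F4.w := by decide
      have e3 : F4.cj 0 + F4.cj (1 + F4.w) = F4.w := by decide
      rw [e1, e2, e3, ← key (1 + F4.w) hv0]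
      have k1 : F4.w • l.1 + F4.w • m.1 = 0 ↔ (1 + F4.w) • l.1 + (1 + F4.w) • m.1 = 0 := by
        rw [← smul_add, ← smul_add, smul_eq_zero' hw0, smul_eq_zero' hv0]
      rw [k1]
    · have e1 : (1 : F4) + F4.cj (1 + F4.w) = 1 + F4.w := by decide
      have e2 : (1 : F4) + 1 + (1 + F4.w) = 1 + F4.w := by decide
      have e3 : F4.cj 1 + F4.cj (1 + F4.w) = 1 + F4.w := by decide
      rw [e1, e2, e3]
      exact key (1 + F4.w) hv0

/-- On the condition the remaining sign is trivial. -/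
theorem cond_sg (c : F4) {W : Finset (Lab k)} (h : Her W) {l m : Lab k} (hl : l ∈ W)
    (hc : if c = 0 then l = 0 else if c = 1 then m = 0 else l = m) :
    sg (F4.tr (m.2 ⬝ᵥ l.1)) = 1 := by
  have h0 : F4.tr (m.2 ⬝ᵥ l.1) = 0 := by
    split_ifs at hc with h1 h2
    · rw [hc, Prod.fst_zero, dotProduct_zero, Da.F4.tr_zero]
    · rw [hc, Prod.snd_zero, zero_dotProduct, Da.F4.tr_zero]
    · rw [← hc]
      exact (Da.F4.cj_eq_iff _).1 (h l hl l hl)
  rw [h0, sg_zero]

theorem card_cond (c : F4) {W : Finset (Lab k)} (hW : Mx W) :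
    ∑ l ∈ W, ∑ m ∈ W, (if (if c = 0 then l = 0 else if c = 1 then m = 0 else l = m) then (1 : ℝ)
      else 0) = 4 ^ k := by
  have hc : (W.card : ℝ) = 4 ^ k := by rw [hW.card]; push_cast; rfl
  split_ifs with h1 h2
  · rw [sum_comm]
    simp only [sum_ite_eq', hW.zero, if_true, sum_const, nsmul_eq_mul, mul_one]
    exact hc
  · simp only [sum_ite_eq', hW.zero, if_true, sum_const, nsmul_eq_mul, mul_one]
    exact hc
  · have : ∀ l ∈ W, ∑ m ∈ W, (if l = m then (1 : ℝ) else 0) = 1 := fun l hl => by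
      rw [sum_ite_eq, if_pos hl]
    rw [sum_congr rfl this, sum_const, nsmul_eq_mul, mul_one]
    exact hc

theorem sum_Ffun (c c' a : F4) {W : Finset (Lab k)} (hW : Mx W) (h : Her W) :
    ∑ l ∈ W, ∑ m ∈ W, Ffun k c c' (a, l, m) = 4 ^ k * 4 ^ k * 4 ^ k * sg (F4.tr (c' * a)) := by
  have hc : (W.card : ℝ) = 4 ^ k := by rw [hW.card]; push_cast; rfl
  by_cases hb : bet c a = 0
  · have h1 : ∀ l ∈ W, ∀ m ∈ W, Ffun k c c' (a, l, m) = 4 ^ k * 4 ^ k * sg (F4.tr (c' * a)) *
        (if (if c = 0 then l = 0 else if c = 1 then m = 0 else l = m) then (1 : ℝ) else 0) := by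
      intro l hl m hm
      rw [Ffun]
      simp only [hb, ne_eq, not_true_eq_false, if_false]
      rw [if_congr (cond_iff c a hb l m) rfl rfl]
      by_cases hq : (if c = 0 then l = 0 else if c = 1 then m = 0 else l = m)
      · rw [if_pos hq, if_pos hq, cond_sg c h hl hq]
        ring
      · rw [if_neg hq, if_neg hq]
        ring
    rw [sum_congr rfl fun l hl => sum_congr rfl fun m hm => h1 l hl m hm]
    simp only [← mul_sum]
    rw [card_cond c hW]
    ring
  · have h1 : ∀ l ∈ W, ∀ m ∈ W, Ffun k c c' (a, l, m) = 4 ^ k * sg (F4.tr (c' * a)) := by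
      intro l _ m _
      rw [Ffun]
      simp only [ne_eq, hb, not_false_eq_true, if_true, mul_one]
    rw [sum_congr rfl fun l hl => sum_congr rfl fun m hm => h1 l hl m hm]
    simp only [sum_const, nsmul_eq_mul]
    rw [hc]
    ring

/-- The hermitian case. -/
theorem sum_EE2_her (o : Lab k → ℕ) (ho : Function.Injective o) (c c' : F4)
    {W : Finset (Lab k)} (hW : Mx W) (h : Her W) :
    ∑ l0, ∑ A, sg (EE2 (fun l => o (l + l0)) c c' W l0 A) =
      if c' = 0 then (4 ^ k : ℝ) * Fintype.card (Lab k → F4) else 0 := by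
  have ho' : ∀ l0, Function.Injective fun l : Lab k => o (l + l0) := fun l0 =>
    ho.comp (add_left_injective l0)
  have hr : ∀ l0 A, EE2 (fun l => o (l + l0)) c c' W l0 A = EE2 o c c' W l0 A := fun l0 A => by
    rw [EE2_eq _ (ho' l0) c c' hW h, EE2_eq o ho c c' hW h]
  simp only [hr]
  rw [sum_comm]
  simp only [sum_l02 o ho c c' hW h]
  have h1 := sum_gG hW h (Ffun k c c')
  refine Eq.trans h1 ?_
  have h2 : (Fintype.card (Lab k → F4) : ℝ) = kapG W * (4 * (4 ^ k * 4 ^ k)) := by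
    have := sum_gG hW h fun _ => 1
    simp only [sum_const, card_univ, nsmul_eq_mul, mul_one, F4.card_F4, hW.card] at this
    rw [this]
    push_cast
    ring
  simp only [sum_Ffun c c' _ hW h]
  rw [← mul_sum, sum_sg_tr]
  split_ifs with hc
  · rw [h2]; ring
  · ring

/-- (K3) for the class `c`. -/
theorem K3c (o : Lab k → ℕ) (ho : Function.Injective o) (c c' : F4) :
    ∑ U ∈ Us k, cU2 o c c' U = if c' = 0 then (Nk k : ℝ) else 0 := by
  classical
  have hpos : (0 : ℝ) < Fintype.card (Lab k → F4) := by exact_mod_cast Fintype.card_pos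
  have h4 : (0 : ℝ) < 4 ^ k := by positivity
  have h0 := sum_Us (k := k) fun U => ∑ A : Lab k → F4, sg (theta2 o c c' U A)
  have h1 : ∀ W ∈ univ.filter (fun W : Finset (Lab k) => Mx W),
      ∑ l0, ∑ A : Lab k → F4, sg (theta2 o c c' (sh l0 W) A) =
      if Her W then (if c' = 0 then (4 ^ k : ℝ) * Fintype.card (Lab k → F4) else 0) else 0 := by
    intro W hW
    have hW1 := (mem_filter.1 hW).2
    have h2 : ∀ l0, ∑ A : Lab k → F4, sg (theta2 o c c' (sh l0 W) A) =
        ∑ A : Lab k → F4, sg (EE2 (fun l => o (l + l0)) c c' W l0 A) := by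
      intro l0
      refine Fintype.sum_equiv (Equiv.arrowCongr (Equiv.addRight l0) (Equiv.refl F4)) _ _ ?_
      intro A
      rw [theta2_sh]
      congr 2
    simp only [h2]
    split_ifs with hH hc
    · rw [sum_EE2_her o ho c c' hW1 hH, if_pos hc]
    · rw [sum_EE2_her o ho c c' hW1 hH, if_neg hc]
    · exact sum_eq_zero fun l0 _ =>
        sum_EE2_not_her _ (ho.comp (add_left_injective l0)) c c' hW1 hH l0
  rw [sum_congr rfl h1, ← sum_filter, filter_filter] at h0
  have h5 : univ.filter (fun W : Finset (Lab k) => Mx W ∧ Her W) = Lgs k := by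
    rw [Lgs]
  have h6 : ∑ U ∈ Us k, cU2 o c c' U =
      (∑ U ∈ Us k, ∑ A : Lab k → F4, sg (theta2 o c c' U A)) / Fintype.card (Lab k → F4) := by
    rw [sum_div]
    rfl
  rw [h6]
  rw [h5, sum_const, nsmul_eq_mul, card_Lgs] at h0
  split_ifs at h0 ⊢ with hc
  · rw [div_eq_iff hpos.ne']
    have := mul_left_cancel₀ h4.ne' (h0.trans (show (4 : ℝ) ^ k * ((Nk k : ℝ) *
      Fintype.card (Lab k → F4)) = _ by ring).symm)
    exact this
  · rw [mul_zero] at h0
    rcases mul_eq_zero.1 h0 with h | h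
    · exact absurd h h4.ne'
    · rw [h, zero_div]

end Pool.Agent.Lib.MP_1a91b9_ntH2.Db
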